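import Pool.Agent.Q287.NT.Stm

set_option autoImplicit false

namespace Q287.NT

open MeasureTheory
open scoped ENNReal

/-- expected number of uncovered vertices -/
noncomputable def EU (d n : ℕ) : ℝ := ∫ x, ((Unc x n).ncard : ℝ) ∂(PP d)

lemma unc_subset {d : ℕ} (x : ℕ → Tor d) (n : ℕ) : Unc x n ⊆ (Finset.range n : Set ℕ) := by
  intro v hv
  simpa using hv.1

lemma unc_finite {d : ℕ} (x : ℕ → Tor d) (n : ℕ) : (Unc x n).Finite :=
  (Finset.range n).finite_toSet.subset (unc_subset x n)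

lemma ncard_le {d : ℕ} (x : ℕ → Tor d) (n : ℕ) : (Unc x n).ncard ≤ n := by
  have := Set.ncard_le_ncard (unc_subset x n) (Finset.range n).finite_toSet
  simpa using this

lemma one_le_ncard (hU : S_UNC) (hP : S_PAR) {d : ℕ} (x : ℕ → Tor d) {n : ℕ} (hn : 1 ≤ n) :
    1 ≤ (Unc x n).ncard := by
  have h0 : (0 : ℕ) ∈ Unc x n := by
    apply hU d x n 0 hn
    intro k
    have : (parent x)^[k] 0 = 0 := by
      induction k with
      | zero => rfl
      | succ k ih => rw [Function.iterate_succ_apply, (hP d x).1, ih]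
    rw [this]
    rintro ⟨h, -⟩
    omega
  rw [Nat.one_le_iff_ne_zero, ← Nat.pos_iff_ne_zero]
  exact (Set.ncard_pos (unc_finite x n)).mpr ⟨0, h0⟩

lemma integrable_ncard (hM : S_MEASU) (d n : ℕ) :
    Integrable (fun x : ℕ → Tor d => ((Unc x n).ncard : ℝ)) (PP d) := by
  apply Integrable.of_bound (hM d n).aestronglyMeasurable (n : ℝ)
  filter_upwards with x
  rw [Real.norm_eq_abs, abs_of_nonneg (by positivity)]
  exact_mod_cast ncard_le x n

lemma one_le_EU (hU : S_UNC) (hP : S_PAR) (hM : S_MEASU) (d : ℕ) {n : ℕ} (hn : 1 ≤ n) :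
    1 ≤ EU d n := by
  have h1 : ∫ x : ℕ → Tor d, (1 : ℝ) ∂(PP d) = 1 := by simp
  calc (1 : ℝ) = ∫ x : ℕ → Tor d, (1 : ℝ) ∂(PP d) := h1.symm
    _ ≤ EU d n := by
        apply integral_mono (integrable_const 1) (integrable_ncard hM d n)
        intro x
        show (1 : ℝ) ≤ ((Unc x n).ncard : ℝ)
        exact_mod_cast one_le_ncard hU hP x hn

theorem growth (hU : S_UNC) (hP : S_PAR) (hM : S_MEASU) (hBR : S_BR) (hREC : S_REC)
    (hLOW : S_LOW) (hINIT : S_INIT) (hPOW : S_POW) {d : ℕ} (hd : OK d) :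
    ∃ c : ℝ, 0 < c ∧ ∀ n : ℕ, 1 ≤ n → c * (n : ℝ) ^ (1 / (3 * d : ℝ)) ≤ EU d n := by
  have hd1 : 1 ≤ d := by have := hd.1; omega
  obtain ⟨t0, r0, hr0, hr1, hpos⟩ := hINIT d hd1
  have hV : 0 < V d r0 := V_pos hr0
  set p := PP d {x | Good x t0 ∧ r0 ≤ Rp x t0} with hp
  have hpt : p ≠ ⊤ := measure_ne_top _ _
  refine hPOW (EU d) d (t0 + 1) (2 / V d r0) p.toReal hd1 (by positivity) (by positivity)
    (ENNReal.toReal_pos hpos.ne' hpt) (fun n hn => one_le_EU hU hP hM d hn) ?_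
  intro m n hmn
  have h1 := hREC d t0 r0 m (fun x t hx => hBR d x t hd hx)
  have h2 := hLOW d t0 r0 m n hd1 hr0 hr1 (by
    have : 2 * 8 ^ (d * m) / V d r0 = 2 / V d r0 * 8 ^ (d * m) := by ring
    rw [this]; linarith)
  have h3 : 2 ^ m * p ≤ ENNReal.ofReal (EU d n) := h1.trans h2
  have h4 : 0 ≤ EU d n := integral_nonneg fun x => by positivity
  have h5 := ENNReal.toReal_mono ENNReal.ofReal_ne_top h3
  rw [ENNReal.toReal_ofReal h4, ENNReal.toReal_mul, ENNReal.toReal_pow] at h5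
  simpa [mul_comm] using h5

end Q287.NT
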