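import Mathlib

/-!
# Random nearest neighbour trees on the torus: definitions and basic facts

The vertices are numbered `0, 1, 2, …` (vertex `i` of this file is vertex `i + 1` of the problem).
-/

set_option autoImplicit false

namespace Q287.NT

open MeasureTheory
open scoped ENNReal

/-- the torus `ℝ^d / ℤ^d` -/
abbrev Tor (d : ℕ) := Fin d → UnitAddCircle

/-- the torus metric -/
noncomputable def td {d : ℕ} (x y : Tor d) : ℝ := Real.sqrt (∑ i, ‖x i - y i‖ ^ 2)

/-- volume of a ball of radius `s` -/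
noncomputable def V (d : ℕ) (s : ℝ) : ℝ := (volume {y : Tor d | td y 0 < s}).toReal

/-- the law of a sequence of independent uniform points of the torus -/
noncomputable def PP (d : ℕ) : Measure (ℕ → Tor d) :=
  Measure.infinitePi (fun _ : ℕ => (volume : Measure (Tor d)))

/-- `parent x i` is the (least) index `j < i` minimising the distance to `x i`; it is `0` for
`i = 0` -/
noncomputable def parent {d : ℕ} (x : ℕ → Tor d) (i : ℕ) : ℕ :=
  sInf {j | j < i ∧ ∀ k < i, td (x i) (x j) ≤ td (x i) (x k)}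

/-- adjacency in the nearest neighbour tree `T_n` with vertices `0, …, n - 1` -/
def Adj {d : ℕ} (x : ℕ → Tor d) (n a b : ℕ) : Prop :=
  a < n ∧ b < n ∧ ((1 ≤ a ∧ parent x a = b) ∨ (1 ≤ b ∧ parent x b = a))

/-- the forbidden region of the edge `{p, q}` -/
def Forb {d : ℕ} (x : ℕ → Tor d) (p q : ℕ) : Set (Tor d) :=
  {y | td y (x p) < td (x p) (x q) ∧ td y (x q) < td (x p) (x q)}

/-- the vertex `v` is covered by the edge `{p, q}` of `T_n` (`v` being adjacent to `p`) -/
def CovBy {d : ℕ} (x : ℕ → Tor d) (n v p q : ℕ) : Prop :=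
  Adj x n p q ∧ Adj x n v p ∧ v ≠ q ∧ x v ∈ Forb x p q

/-- the vertex `v` of `T_n` is covered: it is, or descends from, a vertex which is covered by some
edge of `T_n` -/
def Cov {d : ℕ} (x : ℕ → Tor d) (n v : ℕ) : Prop :=
  ∃ u p q, CovBy x n u p q ∧ ∃ k, (parent x)^[k] v = u

/-- the set of uncovered vertices of `T_n` -/
def Unc {d : ℕ} (x : ℕ → Tor d) (n : ℕ) : Set ℕ := {v | v < n ∧ ¬ Cov x n v}

/-! ## Auxiliary notions for the proof -/

/-- direct covering of `u`, in terms of earlier vertices only -/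
def DC {d : ℕ} (x : ℕ → Tor d) (u : ℕ) : Prop :=
  1 ≤ u ∧ ∃ q < u, ((1 ≤ parent x u ∧ q = parent x (parent x u)) ∨
    (1 ≤ q ∧ parent x q = parent x u)) ∧ td (x u) (x q) < td (x (parent x u)) (x q)

/-- no ancestor of `v` (including `v`) is directly covered -/
def UN {d : ℕ} (x : ℕ → Tor d) (v : ℕ) : Prop := ∀ k, ¬ DC x ((parent x)^[k] v)

/-- distance to the parent -/
noncomputable def Rp {d : ℕ} (x : ℕ → Tor d) (t : ℕ) : ℝ := td (x t) (x (parent x t))

/-- the far part of the Voronoi cell of vertex `t` at its birth -/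
def Far {d : ℕ} (x : ℕ → Tor d) (t : ℕ) : Set (Tor d) :=
  {z | 3 * Rp x t ≤ td z (x t) ∧ ∀ l < t, td z (x t) ≤ td z (x l)}

/-- good vertices -/
def Good {d : ℕ} (x : ℕ → Tor d) (t : ℕ) : Prop :=
  1 ≤ t ∧ UN x t ∧ 0 < Rp x t ∧ Rp x t ≤ 1 / 16 ∧
    volume (Far x t) ≤ ENNReal.ofReal (V d (Rp x t) / (4 * 8 ^ d))

/-- `j` is a good child of `t` -/
def Step {d : ℕ} (x : ℕ → Tor d) (t j : ℕ) : Prop :=
  t < j ∧ parent x j = t ∧ Rp x t / 8 ≤ Rp x j ∧ ((j : ℝ) - t) * V d (Rp x j) ≤ 1 ∧ Good x j

/-- `j` is a good descendant of generation `m` of the good vertex `t0` -/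
def Gen {d : ℕ} (x : ℕ → Tor d) (t0 : ℕ) (r0 : ℝ) : ℕ → ℕ → Prop
  | 0, j => j = t0 ∧ Good x t0 ∧ r0 ≤ Rp x t0
  | m + 1, j => ∃ t < j, Gen x t0 r0 m t ∧ Step x t j

/-- the sequence which agrees with `x` up to index `t`, followed by the sequence `y` -/
def glue {X : Type} (t : ℕ) (x y : ℕ → X) : ℕ → X := fun i => if i ≤ t then x i else y (i - t - 1)

/-- the good event for the `l`-th new point: `c` is the position of the mother, `q` the position of
her own mother, `C` the far part of her Voronoi cell, `R` her distance to her mother -/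
def Ev {d : ℕ} (c q : Tor d) (C : Set (Tor d)) (R r' r : ℝ) (l : ℕ) : Set (ℕ → Tor d) :=
  {y | r' ≤ td (y l) c ∧ td (y l) c < r
     ∧ (∀ i < l, td (y l) c ≤ td (y l) (y i))
     ∧ td c q ≤ td (y l) q
     ∧ (∀ i < l, y i ∉ C)
     ∧ (∀ i < l, td (y i) c < 3 * R → (∀ i' < i, td (y i) c ≤ td (y i) (y i')) →
          td c (y i) ≤ td (y l) (y i))
     ∧ volume {z | 3 * td (y l) c ≤ td z (y l) ∧ ∀ i < l, td z (y l) ≤ td z (y i)}
          ≤ ENNReal.ofReal (V d (td (y l) c) / (4 * 8 ^ d))}

/-- the constant of the lens estimate -/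
noncomputable def kap : ℝ := Real.sqrt (1 - 1 / 4608)

/-- the dimension is large enough -/
def OK (d : ℕ) : Prop :=
  128 ≤ d ∧ kap ^ d * (10 * d + 6) ≤ 1 / 8 ∧ 4096 * (8 : ℝ) ^ d ≤ Real.exp ((3 : ℝ) ^ d / 64)

/-! ## Basic facts on `td` -/

variable {d : ℕ}

lemma td_eq_dist (x y : Tor d) : td x y = dist (WithLp.toLp 2 x) (WithLp.toLp 2 y) := by
  rw [PiLp.dist_eq_of_L2]
  simp [td, dist_eq_norm]

lemma td_nonneg (x y : Tor d) : 0 ≤ td x y := Real.sqrt_nonneg _

lemma td_comm (x y : Tor d) : td x y = td y x := by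
  rw [td_eq_dist, td_eq_dist, dist_comm]

@[simp] lemma td_self (x : Tor d) : td x x = 0 := by simp [td_eq_dist]

lemma td_triangle (x y z : Tor d) : td x z ≤ td x y + td y z := by
  simp only [td_eq_dist]; exact dist_triangle _ _ _

lemma td_add_right (x y z : Tor d) : td (x + z) (y + z) = td x y := by
  simp [td]

lemma td_sub_zero (x y : Tor d) : td (x - y) 0 = td x y := by
  simp [td]

lemma continuous_td : Continuous (fun p : Tor d × Tor d => td p.1 p.2) := by
  unfold td
  fun_prop

attribute [irreducible] td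

lemma measurable_td {α : Type*} [MeasurableSpace α] {f g : α → Tor d} (hf : Measurable f)
    (hg : Measurable g) : Measurable (fun a => td (f a) (g a)) := by
  have h1 : Measurable (fun a => (f a, g a)) := hf.prodMk hg
  exact continuous_td.measurable.comp h1

instance : IsProbabilityMeasure (volume : Measure UnitAddCircle) := ⟨UnitAddCircle.measure_univ⟩

instance : IsProbabilityMeasure (volume : Measure (Tor d)) :=
  inferInstanceAs (IsProbabilityMeasure
    (Measure.pi fun _ : Fin d => (volume : Measure UnitAddCircle)))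

instance : (volume : Measure (Tor d)).IsOpenPosMeasure :=
  inferInstanceAs ((Measure.pi fun _ : Fin d => (volume : Measure UnitAddCircle)).IsOpenPosMeasure)

instance : IsProbabilityMeasure (PP d) := by unfold PP; infer_instance

/-- the volume of a ball does not depend on its centre -/
lemma vol_ball (c : Tor d) (s : ℝ) : volume {y : Tor d | td y c < s} = ENNReal.ofReal (V d s) := by
  have h : {y : Tor d | td y c < s} = (fun y => y + (-c)) ⁻¹' {y : Tor d | td y 0 < s} := by
    ext y
    simp only [Set.mem_ofPred_eq, Set.mem_preimage]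
    rw [← sub_eq_add_neg, td_sub_zero]
  rw [h, measure_preimage_add_right, V, ENNReal.ofReal_toReal (measure_ne_top _ _)]

lemma vol_ball' (c : Tor d) (s : ℝ) : volume {y : Tor d | td c y < s} = ENNReal.ofReal (V d s) := by
  rw [← vol_ball c s]; simp [td_comm]

lemma V_nonneg (s : ℝ) : 0 ≤ V d s := ENNReal.toReal_nonneg

lemma V_le_one (s : ℝ) : V d s ≤ 1 := by
  have h : volume {y : Tor d | td y 0 < s} ≤ 1 := prob_le_one
  exact ENNReal.toReal_le_of_le_ofReal zero_le_one (by simpa using h)

lemma V_mono {s t : ℝ} (h : s ≤ t) : V d s ≤ V d t := by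
  unfold V
  apply ENNReal.toReal_mono (measure_ne_top _ _)
  apply measure_mono
  intro y hy
  exact lt_of_lt_of_le hy h

lemma V_pos {s : ℝ} (h : 0 < s) : 0 < V d s := by
  unfold V
  apply ENNReal.toReal_pos _ (measure_ne_top _ _)
  have ho : IsOpen {y : Tor d | td y 0 < s} := by
    have h2 : Continuous fun y : Tor d => td y 0 :=
      continuous_td.comp (continuous_id.prodMk continuous_const)
    exact isOpen_lt h2 continuous_const
  have hne : ({y : Tor d | td y 0 < s}).Nonempty := ⟨0, by simpa using h⟩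
  exact (ho.measure_pos volume hne).ne'

end Q287.NT
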