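import Pool.Agent.Q287.NT.Asm

set_option autoImplicit false

universe u

namespace Q287.NT

open MeasureTheory ProbabilityTheory Filter
open scoped ENNReal Topology

/-- a power of `n` beats every polylogarithm, with a real exponent -/
lemma beat {c a : ℝ} (C k D : ℝ) (hc : 0 < c) (ha : 0 < a) :
    ∃ n : ℕ, 2 ≤ n ∧ C * Real.log n ^ k + D < c * (n : ℝ) ^ a := by
  have h1 : (fun x : ℝ => Real.log x ^ k) =o[atTop] fun x => x ^ a :=
    isLittleO_log_rpow_rpow_atTop k ha
  have h2 : (fun _ : ℝ => D) =o[atTop] fun x : ℝ => x ^ a := by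
    rw [Asymptotics.isLittleO_const_left]
    right
    exact tendsto_norm_atTop_atTop.comp (tendsto_rpow_atTop ha)
  have h3 : (fun x : ℝ => C * Real.log x ^ k + D) =o[atTop] fun x => x ^ a :=
    (h1.const_mul_left C).add h2
  have h4 := h3.bound (half_pos hc)
  have h5 := (tendsto_natCast_atTop_atTop (R := ℝ)).eventually h4
  obtain ⟨n, hn, hn2⟩ := (h5.and (eventually_ge_atTop 2)).exists
  refine ⟨n, hn2, ?_⟩
  have hpos : 0 < (n : ℝ) ^ a := by
    apply Real.rpow_pos_of_pos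
    have : (2 : ℝ) ≤ n := by exact_mod_cast hn2
    linarith
  rw [Real.norm_eq_abs, Real.norm_eq_abs, abs_of_pos hpos] at hn
  calc C * Real.log n ^ k + D ≤ |C * Real.log n ^ k + D| := le_abs_self _
    _ ≤ c / 2 * (n : ℝ) ^ a := hn
    _ < c * (n : ℝ) ^ a := by nlinarith

section transfer

set_option linter.unusedSectionVars false

variable {d : ℕ} {Ω : Type u} [MeasurableSpace Ω] {P : Measure Ω} [IsProbabilityMeasure P]
  {X : ℕ → Ω → Tor d}

lemma law_eq (hX : ∀ i, Measurable (X i)) (hi : iIndepFun X P) (hu : ∀ i, P.map (X i) = volume) :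
    P.map (fun ω i => X i ω) = PP d := by
  rw [hi.map_fun_eq_infinitePi_map hX, PP]
  congr 1
  funext i
  exact hu i

lemma integral_eq (hM : S_MEASU) (hX : ∀ i, Measurable (X i)) (hi : iIndepFun X P)
    (hu : ∀ i, P.map (X i) = volume) (n : ℕ) :
    ∫ ω, ((Unc (fun i => X i ω) n).ncard : ℝ) ∂P = EU d n := by
  rw [EU, ← law_eq hX hi hu,
    integral_map (measurable_pi_iff.2 hX).aemeasurable (hM d n).aestronglyMeasurable]

lemma meas_ncard (hM : S_MEASU) (hX : ∀ i, Measurable (X i)) (n : ℕ) :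
    Measurable fun ω => ((Unc (fun i => X i ω) n).ncard : ℝ) :=
  (hM d n).comp (measurable_pi_iff.2 hX)

lemma int_ncard (hM : S_MEASU) (hX : ∀ i, Measurable (X i)) (n : ℕ) :
    Integrable (fun ω => ((Unc (fun i => X i ω) n).ncard : ℝ)) P := by
  apply Integrable.of_bound (meas_ncard hM hX n).aestronglyMeasurable (n : ℝ)
  filter_upwards with ω
  rw [Real.norm_eq_abs, abs_of_nonneg (by positivity)]
  exact_mod_cast ncard_le _ n

/-- if `|U_n| ≤ B` with probability at least `1 - 1/n` then the expectation is at most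
`|B| + 1` -/
lemma exp_le (hM : S_MEASU) (hX : ∀ i, Measurable (X i)) {n : ℕ} (hn : 1 ≤ n) (B : ℝ)
    (h : 1 - 1 / (n : ℝ) ≤ P.real {ω | ((Unc (fun i => X i ω) n).ncard : ℝ) ≤ B}) :
    ∫ ω, ((Unc (fun i => X i ω) n).ncard : ℝ) ∂P ≤ |B| + 1 := by
  set f : Ω → ℝ := fun ω => ((Unc (fun i => X i ω) n).ncard : ℝ) with hf
  have hms : MeasurableSet {ω | f ω ≤ B} := measurableSet_le (meas_ncard hM hX n) measurable_const
  have hn0 : (0 : ℝ) < n := by exact_mod_cast hn
  have hc : P.real {ω | f ω ≤ B}ᶜ ≤ 1 / n := by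
    rw [probReal_compl_eq_one_sub hms]
    linarith
  have hle : ∀ ω, f ω ≤ |B| + Set.indicator {ω | f ω ≤ B}ᶜ (fun _ => (n : ℝ)) ω := by
    intro ω
    by_cases hω : f ω ≤ B
    · have : ω ∉ {ω | f ω ≤ B}ᶜ := fun h => h hω
      rw [Set.indicator_of_notMem this]
      have := le_abs_self B
      linarith
    · have : ω ∈ {ω | f ω ≤ B}ᶜ := hω
      rw [Set.indicator_of_mem this]
      have h1 : f ω ≤ n := by
        show ((Unc (fun i => X i ω) n).ncard : ℝ) ≤ n
        exact_mod_cast ncard_le _ n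
      have := abs_nonneg B
      linarith
  have hint : Integrable (Set.indicator {ω | f ω ≤ B}ᶜ (fun _ => (n : ℝ))) P :=
    (integrable_const _).indicator hms.compl
  calc ∫ ω, f ω ∂P ≤ ∫ ω, (|B| + Set.indicator {ω | f ω ≤ B}ᶜ (fun _ => (n : ℝ)) ω) ∂P :=
        integral_mono (int_ncard hM hX n) ((integrable_const _).add hint) hle
    _ = |B| + P.real {ω | f ω ≤ B}ᶜ * n := by
        rw [integral_add (integrable_const _) hint, integral_indicator_const _ hms.compl]
        simp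
    _ ≤ |B| + 1 := by
        have : P.real {ω | f ω ≤ B}ᶜ * n ≤ 1 / n * n := by gcongr
        rw [one_div, inv_mul_cancel₀ hn0.ne'] at this
        linarith

end transfer

/-- the statement of the result -/
def Result : Prop :=
  ∃ d₀ : ℕ, ∀ d ≥ d₀, ∃ c : ℝ, 0 < c ∧
    ∀ (Ω : Type u) [MeasurableSpace Ω] (P : Measure Ω) [IsProbabilityMeasure P]
      (X : ℕ → Ω → Tor d), (∀ i, Measurable (X i)) → iIndepFun X P →
      (∀ i, P.map (X i) = volume) →
      (∀ n : ℕ, 1 ≤ n →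
        c * (n : ℝ) ^ (1 / (3 * d : ℝ)) ≤ ∫ ω, ((Unc (fun i => X i ω) n).ncard : ℝ) ∂P) ∧
      (∀ C k : ℝ, ∃ n : ℕ, 2 ≤ n ∧
        C * Real.log n ^ k < ∫ ω, ((Unc (fun i => X i ω) n).ncard : ℝ) ∂P) ∧
      (∀ C k : ℝ, ∃ n : ℕ, 2 ≤ n ∧
        P.real {ω | ((Unc (fun i => X i ω) n).ncard : ℝ) ≤ C * Real.log n ^ k} < 1 - 1 / n)

theorem final (hU : S_UNC) (hP : S_PAR) (hM : S_MEASU) (hBR : S_BR) (hREC : S_REC)
    (hLOW : S_LOW) (hINIT : S_INIT) (hPOW : S_POW) (hEV : S_EVOK) : Result.{u} := by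
  obtain ⟨d0, hd0⟩ := hEV
  refine ⟨d0, fun d hd => ?_⟩
  have hOK := hd0 d hd
  have hd1 : 1 ≤ d := by have := hOK.1; omega
  obtain ⟨c, hc, hg⟩ := growth hU hP hM hBR hREC hLOW hINIT hPOW hOK
  refine ⟨c, hc, ?_⟩
  intro Ω _ P _ X hX hi hu
  have hint := integral_eq hM hX hi hu
  have ha : (0 : ℝ) < 1 / (3 * d : ℝ) := by
    have : (1 : ℝ) ≤ d := by exact_mod_cast hd1
    positivity
  refine ⟨fun n hn => by rw [hint]; exact hg n hn, ?_, ?_⟩
  · intro C k
    obtain ⟨n, hn, h⟩ := beat C k 0 hc ha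
    refine ⟨n, hn, ?_⟩
    rw [hint]
    have := hg n (by omega)
    linarith
  · intro C k
    obtain ⟨n, hn, h⟩ := beat |C| k 1 hc ha
    refine ⟨n, hn, ?_⟩
    by_contra hcon
    rw [not_lt] at hcon
    have h1 := exp_le hM hX (by omega) _ hcon
    rw [hint] at h1
    have h2 := hg n (by omega)
    have h3 : |C * Real.log n ^ k| = |C| * Real.log n ^ k := by
      rw [abs_mul]
      congr 1
      apply abs_of_nonneg
      apply Real.rpow_nonneg
      apply Real.log_nonneg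
      have : (2 : ℝ) ≤ n := by exact_mod_cast hn
      linarith
    rw [h3] at h1
    linarith

end Q287.NT
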