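import Pool.Agent.Q287.NT.Stm

set_option autoImplicit false

namespace Q287.NT

open MeasureTheory
open scoped ENNReal

lemma PP_eval {d : ℕ} (l : ℕ) {S : Set (Tor d)} (hS : MeasurableSet S) :
    PP d {y | y l ∈ S} = volume S := by
  have h := measurePreserving_eval_infinitePi (fun _ : ℕ => (volume : Measure (Tor d))) l
  exact h.measure_preimage hS.nullMeasurableSet

lemma meas_td_lt {d : ℕ} (c : Tor d) (s : ℝ) : MeasurableSet {z : Tor d | td z c < s} :=
  measurableSet_lt (measurable_td measurable_id measurable_const) measurable_const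

lemma vol_shell {d : ℕ} (c : Tor d) {r' r : ℝ} (h : r' ≤ r) :
    volume {z : Tor d | r' ≤ td z c ∧ td z c < r} = ENNReal.ofReal (V d r - V d r') := by
  have h1 : {z : Tor d | r' ≤ td z c ∧ td z c < r} =
      {z : Tor d | td z c < r} \ {z : Tor d | td z c < r'} := by
    ext z
    simp only [Set.mem_ofPred_eq, Set.mem_sdiff, not_lt]
    exact and_comm
  have h2 : {z : Tor d | td z c < r'} ⊆ {z : Tor d | td z c < r} := fun z hz =>
    lt_of_lt_of_le hz h
  rw [h1, measure_sdiff h2 (meas_td_lt c r').nullMeasurableSet (measure_ne_top _ _), vol_ball,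
    vol_ball, ENNReal.ofReal_sub _ (V_nonneg _)]

theorem t_KEY (hSC : S_SCALE) (hLE : S_LENS) (hI1 : S_I1) (hE2 : S_E2) (hPA : S_PA) (hPB : S_PB)
    (hPC : S_PC) (hPD : S_PD) : S_KEY := by
  intro d c q C R r' r l hOK hC hR hR16 hcq hvC hr' hr hr0 hrr hl1 hl2
  obtain ⟨hd, hk, he⟩ := hOK
  have hd1 : 1 ≤ d := by omega
  have hd4 : 4 ≤ d := by omega
  have hr'0 : 0 < r' := by linarith
  have hr64 : r ≤ 1 / 64 := by linarith
  have hlt : r' < r := by
    apply lt_of_pow_lt_pow_left₀ d hr0.le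
    have : 0 < r' ^ d := by positivity
    linarith
  have hr'64 : r' ≤ 1 / 64 := by linarith
  have hv : 0 < V d r := V_pos hr0
  have hv' : V d r' = V d r / 2 := by
    have h := hSC d (r' / r) r (by positivity) (by rw [div_le_one hr0]; exact hlt.le) hr0
      (by linarith)
    rw [div_mul_cancel₀ _ hr0.ne', div_pow] at h
    rw [h, ← hrr]
    have : 0 < r' ^ d := by positivity
    field_simp
  have hVR : V d R / (4 * 8 ^ d) ≤ V d r / 8 := by
    have h := hSC d (1 / 8) R (by norm_num) (by norm_num) hR (by linarith)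
    have h2 : V d (1 / 8 * R) ≤ V d r' := V_mono (by linarith)
    rw [h, hv'] at h2
    have h8 : (0 : ℝ) < 8 ^ d := by positivity
    have h3 : (1 / 8 : ℝ) ^ d * V d R = V d R / 8 ^ d := by
      rw [one_div, inv_pow]; ring
    rw [h3] at h2
    have h4 : V d R / (4 * 8 ^ d) = (V d R / 8 ^ d) / 4 := by
      field_simp
    rw [h4]
    linarith
  have hv16 : V d r ≤ 1 / 16 := by
    have h := hSC d (1 / 32) (1 / 2) (by norm_num) (by norm_num) (by norm_num) (by norm_num)
    have h2 : V d r ≤ V d (1 / 32 * (1 / 2)) := V_mono (by linarith)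
    rw [h] at h2
    have h3 : (1 / 32 : ℝ) ^ d ≤ 1 / 32 := by
      calc (1 / 32 : ℝ) ^ d ≤ (1 / 32) ^ 1 := pow_le_pow_of_le_one (by norm_num) (by norm_num) hd1
        _ = 1 / 32 := by norm_num
    have h4 : V d (1 / 2) ≤ 1 := V_le_one _
    have h5 : 0 ≤ V d (1 / 2) := V_nonneg _
    have h6 : 0 ≤ (1 / 32 : ℝ) ^ d := by positivity
    nlinarith
  have hlv : (l : ℝ) * V d r ≤ 1 / 4 := by nlinarith
  have hlv2 : 1 / 16 ≤ (l : ℝ) * V d r := by nlinarith
  have hkap : 0 ≤ kap ^ d := by unfold kap; positivity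
  -- the shell
  set Sh : Set (Tor d) := {z : Tor d | r' ≤ td z c ∧ td z c < r} with hSh
  have hShv : volume Sh = ENNReal.ofReal (V d r / 2) := by
    rw [hSh, vol_shell c hlt.le, hv']; congr 1; ring
  have hShm : MeasurableSet Sh :=
    (measurableSet_le measurable_const (measurable_td measurable_id measurable_const)).inter
      (meas_td_lt c r)
  have hS : PP d {y | y l ∈ Sh} = ENNReal.ofReal (V d r / 2) := by rw [PP_eval l hShm, hShv]
  -- the bad events
  set A : Set (ℕ → Tor d) :=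
    {y | (r' ≤ td (y l) c ∧ td (y l) c < r) ∧ ∃ i < l, td (y l) (y i) < td (y l) c} with hA
  set B : Set (ℕ → Tor d) :=
    {y | (r' ≤ td (y l) c ∧ td (y l) c < r) ∧ ∃ i < l, y i ∈ C} with hB
  set K : Set (ℕ → Tor d) :=
    {y | (r' ≤ td (y l) c ∧ td (y l) c < r) ∧ ∃ i < l, td (y i) c < 3 * R ∧
      (∀ i' < i, td (y i) c ≤ td (y i) (y i')) ∧ td (y l) (y i) < td c (y i)} with hK
  set θ : ℝ≥0∞ := ENNReal.ofReal (V d r' / (4 * 8 ^ d)) with hθ
  set D : Set (ℕ → Tor d) :=
    {y | (r' ≤ td (y l) c ∧ td (y l) c < r) ∧ θ < volume {z : Tor d |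
      3 * td (y l) c ≤ td z (y l) ∧ ∀ i < l, td z (y l) ≤ td z (y i)}} with hD
  set Q : Set (ℕ → Tor d) := {y | y l ∈ {x : Tor d | r' ≤ td x c ∧ td x c < r ∧
    td x q < td c q}} with hQ
  have hsub : {y : ℕ → Tor d | y l ∈ Sh} ⊆ Ev c q C R r' r l ∪ (A ∪ (B ∪ (K ∪ (D ∪ Q)))) := by
    intro y hy
    have hy' : r' ≤ td (y l) c ∧ td (y l) c < r := hy
    by_cases h1 : ∀ i < l, td (y l) c ≤ td (y l) (y i)
    swap
    · push Not at h1
      exact Or.inr (Or.inl ⟨hy', h1⟩)
    by_cases h2 : td c q ≤ td (y l) q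
    swap
    · push Not at h2
      exact Or.inr (Or.inr (Or.inr (Or.inr (Or.inr ⟨hy'.1, hy'.2, h2⟩))))
    by_cases h3 : ∀ i < l, y i ∉ C
    swap
    · push Not at h3
      exact Or.inr (Or.inr (Or.inl ⟨hy', h3⟩))
    by_cases h4 : ∀ i < l, td (y i) c < 3 * R → (∀ i' < i, td (y i) c ≤ td (y i) (y i')) →
          td c (y i) ≤ td (y l) (y i)
    swap
    · push Not at h4
      obtain ⟨i, hi, ha, hb, hc⟩ := h4
      exact Or.inr (Or.inr (Or.inr (Or.inl ⟨hy', i, hi, ha, hb, hc⟩)))
    by_cases h5 : volume {z : Tor d | 3 * td (y l) c ≤ td z (y l) ∧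
        ∀ i < l, td z (y l) ≤ td z (y i)} ≤ ENNReal.ofReal (V d (td (y l) c) / (4 * 8 ^ d))
    · exact Or.inl ⟨hy'.1, hy'.2, h1, h2, h3, h4, h5⟩
    · rw [not_le] at h5
      refine Or.inr (Or.inr (Or.inr (Or.inr (Or.inl ⟨hy', lt_of_le_of_lt ?_ h5⟩))))
      apply ENNReal.ofReal_le_ofReal
      apply div_le_div_of_nonneg_right (V_mono hy'.1) (by positivity)
  have hPA' : PP d A ≤ ENNReal.ofReal (1 / 4 * (V d r / 2)) := by
    refine (hPA d c r' r l).trans ?_
    rw [hShv, ← ENNReal.ofReal_natCast, ← ENNReal.ofReal_mul (by positivity),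
      ← ENNReal.ofReal_mul (by positivity)]
    apply ENNReal.ofReal_le_ofReal
    nlinarith
  have hPB' : PP d B ≤ ENNReal.ofReal (1 / 32 * (V d r / 2)) := by
    refine (hPB d c C r' r l hC).trans ?_
    calc (l : ℝ≥0∞) * volume C * volume Sh
        ≤ (l : ℝ≥0∞) * ENNReal.ofReal (V d r / 8) * volume Sh := by
          gcongr
          exact hvC.trans (ENNReal.ofReal_le_ofReal hVR)
      _ ≤ _ := by
          rw [hShv, ← ENNReal.ofReal_natCast, ← ENNReal.ofReal_mul (by positivity),
            ← ENNReal.ofReal_mul (by positivity)]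
          apply ENNReal.ofReal_le_ofReal
          nlinarith
  have hlens : ∀ p : Tor d, td p c < 3 * R →
      volume {x : Tor d | r' ≤ td x c ∧ td x c < r ∧ td x p < td c p} ≤
        ENNReal.ofReal (kap ^ d * V d r) := fun p hp =>
    hLE d c p r' r hd4 hr'0 hr0 hr64 hrr (by linarith)
  have hPK' : PP d K ≤ ENNReal.ofReal (kap ^ d * V d r * (5 * d + 2)) := by
    refine (hPC d c (3 * R) r' r l _ hlens).trans ?_
    have e : ENNReal.ofReal (kap ^ d * V d r * (5 * d + 2)) =
        ENNReal.ofReal (kap ^ d * V d r) * ENNReal.ofReal (5 * d + 2) :=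
      ENNReal.ofReal_mul (by positivity)
    rw [e]
    refine mul_le_mul_right ?_ _
    refine le_trans ?_ (hI1 d c r l hd1 hr0 hr64 (by linarith))
    apply Finset.sum_le_sum
    intro i _
    apply lintegral_mono_set
    intro z hz
    have hz' : td z c < 3 * R := hz
    show td z c < 24 * r
    linarith
  have hPD' : PP d D ≤ ENNReal.ofReal (1 / 16 * (V d r / 2)) := by
    have hv'0 : 0 < V d r' := V_pos hr'0
    have hθ0 : 0 < V d r' / (4 * 8 ^ d) := by positivity
    refine (hPD d c r' r l (ENNReal.ofReal (64 * V d r' * Real.exp (-((3 : ℝ) ^ d / 64)))) θ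
      (by rw [hθ]; exact (ENNReal.ofReal_pos.2 hθ0).ne') ENNReal.ofReal_ne_top (fun a =>
        hE2 d a r' l hd1 hr'0 hr'64 (by rw [hv']; nlinarith))).trans ?_
    rw [hShv, hθ, ← ENNReal.ofReal_div_of_pos hθ0, ← ENNReal.ofReal_mul (by positivity)]
    apply ENNReal.ofReal_le_ofReal
    have h1 : 64 * V d r' * Real.exp (-((3 : ℝ) ^ d / 64)) / (V d r' / (4 * 8 ^ d)) =
        256 * 8 ^ d * Real.exp (-((3 : ℝ) ^ d / 64)) := by
      field_simp
      ring
    rw [h1]
    have h2 : 256 * 8 ^ d * Real.exp (-((3 : ℝ) ^ d / 64)) ≤ 1 / 16 := by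
      rw [Real.exp_neg]
      have hep : 0 < Real.exp ((3 : ℝ) ^ d / 64) := Real.exp_pos _
      rw [← div_eq_mul_inv, div_le_iff₀ hep]
      linarith
    gcongr
  have hPQ' : PP d Q ≤ ENNReal.ofReal (kap ^ d * V d r) := by
    have hQm : MeasurableSet {x : Tor d | r' ≤ td x c ∧ td x c < r ∧ td x q < td c q} :=
      (measurableSet_le measurable_const (measurable_td measurable_id measurable_const)).inter
        ((meas_td_lt c r).inter (meas_td_lt q (td c q)))
    rw [hQ, PP_eval l hQm]
    apply hlens q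
    rw [td_comm, hcq]
    linarith
  have hsum : PP d A + (PP d B + (PP d K + (PP d D + PP d Q))) ≤ ENNReal.ofReal (V d r / 4) := by
    calc PP d A + (PP d B + (PP d K + (PP d D + PP d Q)))
        ≤ ENNReal.ofReal (1 / 4 * (V d r / 2)) + (ENNReal.ofReal (1 / 32 * (V d r / 2)) +
          (ENNReal.ofReal (kap ^ d * V d r * (5 * d + 2)) +
            (ENNReal.ofReal (1 / 16 * (V d r / 2)) + ENNReal.ofReal (kap ^ d * V d r)))) := by
          gcongr
      _ = ENNReal.ofReal (1 / 4 * (V d r / 2) + (1 / 32 * (V d r / 2) +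
          (kap ^ d * V d r * (5 * d + 2) + (1 / 16 * (V d r / 2) + kap ^ d * V d r)))) := by
          rw [← ENNReal.ofReal_add (by positivity) (by positivity),
            ← ENNReal.ofReal_add (by positivity) (by positivity),
            ← ENNReal.ofReal_add (by positivity) (by positivity),
            ← ENNReal.ofReal_add (by positivity) (by positivity)]
      _ ≤ ENNReal.ofReal (V d r / 4) := by
          apply ENNReal.ofReal_le_ofReal
          have h1 : kap ^ d * (10 * d + 6) * (V d r / 2) ≤ 1 / 8 * (V d r / 2) := by gcongr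
          nlinarith
  have hfin : ENNReal.ofReal (V d r / 2) ≤ PP d (Ev c q C R r' r l) +
      ENNReal.ofReal (V d r / 4) := by
    rw [← hS]
    refine (measure_mono hsub).trans ((measure_union_le _ _).trans ?_)
    gcongr
    refine (measure_union_le _ _).trans (le_trans ?_ hsum)
    gcongr
    refine (measure_union_le _ _).trans ?_
    gcongr
    refine (measure_union_le _ _).trans ?_
    gcongr
    exact measure_union_le _ _
  have h4 : ENNReal.ofReal (V d r / 2) =
      ENNReal.ofReal (V d r / 4) + ENNReal.ofReal (V d r / 4) := by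
    rw [← ENNReal.ofReal_add (by positivity) (by positivity)]
    congr 1
    ring
  rw [h4] at hfin
  exact (ENNReal.add_le_add_iff_right ENNReal.ofReal_ne_top).1 hfin

end Q287.NT
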