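import Pool.Agent.Q287.NT.Asm

set_option autoImplicit false

namespace Q287.NT

open MeasureTheory
open scoped ENNReal

theorem t_LOW (hT : S_TIME) (hU : S_UNC) (hM : S_MEAS) (hMU : S_MEASU) : S_LOW := by
  classical
  intro d t0 r0 m n hd hr0 hr1 hn
  have hin : ∀ (x : ℕ → Tor d) (j : ℕ), Gen x t0 r0 m j → j ∈ Unc x n := by
    intro x j hj
    obtain ⟨hg, -, hle⟩ := hT d x t0 r0 m j hd hr0 hr1 hj
    have hjn : j < n := by
      have : (j : ℝ) < n := lt_of_le_of_lt hle hn
      exact_mod_cast this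
    exact hU d x n j hjn hg.2.1
  have hpt : ∀ x : ℕ → Tor d, ∑' j : ℕ, Set.indicator {x : ℕ → Tor d | Gen x t0 r0 m j}
      (fun _ => (1 : ℝ≥0∞)) x ≤ ENNReal.ofReal ((Unc x n).ncard : ℝ) := by
    intro x
    have h0 : ∀ j ∉ Finset.range n, Set.indicator {x : ℕ → Tor d | Gen x t0 r0 m j}
        (fun _ => (1 : ℝ≥0∞)) x = 0 := by
      intro j hj
      apply Set.indicator_of_notMem
      intro hmem
      exact hj (Finset.mem_range.2 (hin x j hmem).1)
    rw [tsum_eq_sum h0]
    have hcard : (Unc x n).ncard = ((Finset.range n).filter (fun j => j ∈ Unc x n)).card := by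
      rw [← Set.ncard_coe_finset]
      congr 1
      ext j
      simp only [Finset.coe_filter, Finset.mem_range, Set.mem_ofPred_eq]
      exact ⟨fun h => ⟨h.1, h⟩, fun h => h.2⟩
    rw [ENNReal.ofReal_natCast, hcard, Finset.card_filter, Nat.cast_sum]
    apply Finset.sum_le_sum
    intro j _
    by_cases hj : Gen x t0 r0 m j
    · have h1 : x ∈ {x : ℕ → Tor d | Gen x t0 r0 m j} := hj
      rw [Set.indicator_of_mem h1, if_pos (hin x j hj)]
      simp
    · have h1 : x ∉ {x : ℕ → Tor d | Gen x t0 r0 m j} := hj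
      rw [Set.indicator_of_notMem h1]
      exact zero_le
  have hint : ∑' j : ℕ, PP d {x | Gen x t0 r0 m j} =
      ∫⁻ x, ∑' j : ℕ, Set.indicator {x : ℕ → Tor d | Gen x t0 r0 m j}
        (fun _ => (1 : ℝ≥0∞)) x ∂(PP d) := by
    rw [lintegral_tsum fun j =>
      (measurable_const.indicator ((hM d).2.2 t0 r0 m j)).aemeasurable]
    congr 1
    funext j
    rw [lintegral_indicator_const ((hM d).2.2 t0 r0 m j), one_mul]
  rw [hint, ofReal_integral_eq_lintegral_ofReal (integrable_ncard hMU d n)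
    (Filter.Eventually.of_forall fun x => by positivity)]
  exact lintegral_mono hpt

end Q287.NT
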