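import Pool.Agent.Q287.NT.StepP

set_option autoImplicit false

namespace Q287.NT

open MeasureTheory
open scoped ENNReal

theorem t_REC (hG : S_GLUE) (hL : S_LOC) (hM : S_MEAS) : S_REC := by
  intro d t0 r0 m H
  -- measurability of the joint event
  have hGm : ∀ m t, MeasurableSet {x : ℕ → Tor d | Gen x t0 r0 m t} := fun m t =>
    (hM d).2.2 t0 r0 m t
  have hSm : ∀ t j, MeasurableSet {x : ℕ → Tor d | Step x t j} := fun t j => (hM d).2.1 t j
  have hgood : ∀ (m : ℕ) (x : ℕ → Tor d) (t : ℕ), Gen x t0 r0 m t → Good x t := by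
    intro m x t h
    cases m with
    | zero => obtain ⟨h1, h2, -⟩ := h; rw [h1]; exact h2
    | succ m => obtain ⟨s, -, -, h2⟩ := h; exact h2.2.2.2.2
  -- one generation step for a fixed mother
  have hkey : ∀ (m t : ℕ), 2 * PP d {x | Gen x t0 r0 m t} ≤
      ∑' l : ℕ, PP d {x | Gen x t0 r0 m t ∧ Step x t (t + 1 + l)} := by
    intro m t
    have hmp := hG (Tor d) volume t
    have hJ : ∀ l, MeasurableSet {x : ℕ → Tor d | Gen x t0 r0 m t ∧ Step x t (t + 1 + l)} :=
      fun l => (hGm m t).inter (hSm t (t + 1 + l))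
    have hgl : Measurable (fun p : (ℕ → Tor d) × (ℕ → Tor d) => glue t p.1 p.2) := hmp.measurable
    have hJ2 : ∀ l, MeasurableSet {p : (ℕ → Tor d) × (ℕ → Tor d) |
        Step (glue t p.1 p.2) t (t + 1 + l)} := fun l => hgl (hSm t (t + 1 + l))
    have heq : ∀ l, PP d {x | Gen x t0 r0 m t ∧ Step x t (t + 1 + l)} =
        ∫⁻ x, Set.indicator {x : ℕ → Tor d | Gen x t0 r0 m t}
          (fun x => PP d {y | Step (glue t x y) t (t + 1 + l)}) x ∂(PP d) := by
      intro l
      have h1 : PP d {x | Gen x t0 r0 m t ∧ Step x t (t + 1 + l)} =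
          (PP d).prod (PP d) ((fun p : (ℕ → Tor d) × (ℕ → Tor d) => glue t p.1 p.2) ⁻¹'
            {x | Gen x t0 r0 m t ∧ Step x t (t + 1 + l)}) :=
        (hmp.measure_preimage (hJ l).nullMeasurableSet).symm
      rw [h1, Measure.prod_apply (hgl (hJ l))]
      apply lintegral_congr
      intro x
      by_cases hx : Gen x t0 r0 m t
      · have h2 : x ∈ {x : ℕ → Tor d | Gen x t0 r0 m t} := hx
        rw [Set.indicator_of_mem h2]
        congr 1
        ext y
        have h3 : Gen (glue t x y) t0 r0 m t :=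
          ((hL d (glue t x y) x t (fun i hi => glue_le x y hi)).2.2.2.2.2 t0 r0 m).2 hx
        simp only [Set.mem_preimage, Set.mem_ofPred_eq]
        exact ⟨fun h => h.2, fun h => ⟨h3, h⟩⟩
      · have h2 : x ∉ {x : ℕ → Tor d | Gen x t0 r0 m t} := hx
        rw [Set.indicator_of_notMem h2]
        have h4 : (Prod.mk x ⁻¹' ((fun p : (ℕ → Tor d) × (ℕ → Tor d) => glue t p.1 p.2) ⁻¹'
            {x | Gen x t0 r0 m t ∧ Step x t (t + 1 + l)})) = ∅ := by
          ext y
          simp only [Set.mem_preimage, Set.mem_ofPred_eq, Set.mem_empty_iff_false, iff_false]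
          rintro ⟨h3, -⟩
          exact hx (((hL d (glue t x y) x t (fun i hi => glue_le x y hi)).2.2.2.2.2 t0 r0 m).1 h3)
        rw [h4, measure_empty]
    have hmeas : ∀ l, Measurable fun x : ℕ → Tor d =>
        PP d {y | Step (glue t x y) t (t + 1 + l)} := fun l =>
      measurable_measure_prodMk_left (hJ2 l)
    calc 2 * PP d {x | Gen x t0 r0 m t}
        = ∫⁻ x, Set.indicator {x : ℕ → Tor d | Gen x t0 r0 m t} (fun _ => 2) x ∂(PP d) := by
          rw [lintegral_indicator_const (hGm m t)]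
      _ ≤ ∫⁻ x, ∑' l : ℕ, Set.indicator {x : ℕ → Tor d | Gen x t0 r0 m t}
          (fun x => PP d {y | Step (glue t x y) t (t + 1 + l)}) x ∂(PP d) := by
          apply lintegral_mono
          intro x
          by_cases hx : Gen x t0 r0 m t
          · have h2 : x ∈ {x : ℕ → Tor d | Gen x t0 r0 m t} := hx
            simp only [Set.indicator_of_mem h2]
            exact H x t (hgood m x t hx)
          · have h2 : x ∉ {x : ℕ → Tor d | Gen x t0 r0 m t} := hx
            rw [Set.indicator_of_notMem h2]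
            exact zero_le
      _ = ∑' l : ℕ, PP d {x | Gen x t0 r0 m t ∧ Step x t (t + 1 + l)} := by
          rw [lintegral_tsum fun l => ((hmeas l).indicator (hGm m t)).aemeasurable]
          exact tsum_congr fun l => (heq l).symm
  -- the whole generation
  have hstep : ∀ m, 2 * ∑' t : ℕ, PP d {x | Gen x t0 r0 m t} ≤
      ∑' j : ℕ, PP d {x | Gen x t0 r0 (m + 1) j} := by
    intro m
    have hdis : ∀ j, PP d {x | Gen x t0 r0 (m + 1) j} =
        ∑' t : ℕ, PP d {x | Gen x t0 r0 m t ∧ Step x t j} := by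
      intro j
      rw [← measure_iUnion]
      · congr 1
        ext x
        simp only [Set.mem_iUnion, Set.mem_ofPred_eq]
        constructor
        · rintro ⟨t, -, h1, h2⟩
          exact ⟨t, h1, h2⟩
        · rintro ⟨t, h1, h2⟩
          exact ⟨t, h2.1, h1, h2⟩
      · intro s t hst
        rw [Function.onFun, Set.disjoint_left]
        rintro x ⟨-, h1⟩ ⟨-, h2⟩
        exact hst (h1.2.1.symm.trans h2.2.1)
      · intro t
        exact (hGm m t).inter (hSm t j)
    calc 2 * ∑' t : ℕ, PP d {x | Gen x t0 r0 m t}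
        = ∑' t : ℕ, 2 * PP d {x | Gen x t0 r0 m t} := ENNReal.tsum_mul_left.symm
      _ ≤ ∑' t : ℕ, ∑' l : ℕ, PP d {x | Gen x t0 r0 m t ∧ Step x t (t + 1 + l)} :=
          ENNReal.tsum_le_tsum fun t => hkey m t
      _ ≤ ∑' t : ℕ, ∑' j : ℕ, PP d {x | Gen x t0 r0 m t ∧ Step x t j} := by
          apply ENNReal.tsum_le_tsum
          intro t
          exact ENNReal.tsum_comp_le_tsum_of_injective (f := fun l : ℕ => t + 1 + l)
            (fun a b h => by simpa using h) (fun j => PP d {x | Gen x t0 r0 m t ∧ Step x t j})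
      _ = ∑' j : ℕ, ∑' t : ℕ, PP d {x | Gen x t0 r0 m t ∧ Step x t j} := ENNReal.tsum_comm
      _ = ∑' j : ℕ, PP d {x | Gen x t0 r0 (m + 1) j} := tsum_congr fun j => (hdis j).symm
  induction m with
  | zero =>
    rw [pow_zero, one_mul]
    refine le_trans (measure_mono ?_) (ENNReal.le_tsum t0)
    intro x hx
    exact ⟨rfl, hx.1, hx.2⟩
  | succ m ih =>
    calc 2 ^ (m + 1) * PP d {x | Good x t0 ∧ r0 ≤ Rp x t0}
        = 2 * (2 ^ m * PP d {x | Good x t0 ∧ r0 ≤ Rp x t0}) := by rw [pow_succ]; ring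
      _ ≤ 2 * ∑' t : ℕ, PP d {x | Gen x t0 r0 m t} := by gcongr
      _ ≤ _ := hstep m

end Q287.NT
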