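import Pool.Agent.Q287.NT.Tree

set_option autoImplicit false

namespace Q287.NT

open MeasureTheory
open scoped ENNReal

lemma glue_le {X : Type} {t : ℕ} (x y : ℕ → X) {i : ℕ} (hi : i ≤ t) : glue t x y i = x i := by
  unfold glue
  rw [if_pos hi]

lemma glue_gt {X : Type} {t : ℕ} (x y : ℕ → X) (i : ℕ) : glue t x y (t + 1 + i) = y i := by
  unfold glue
  rw [if_neg (by omega)]
  congr 1
  omega

theorem t_STEP : S_STEP := by
  intro d x y t l r' r hG hE hr' hr hV
  obtain ⟨ht1, hUN, hR0, hR16, hFar⟩ := hG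
  obtain ⟨e1, e2, e3, e4, e5, e6, e7⟩ := hE
  have hw : ∀ i ≤ t, glue t x y i = x i := fun i hi => glue_le x y hi
  have hwj : ∀ i, glue t x y (t + 1 + i) = y i := fun i => glue_gt x y i
  generalize glue t x y = w at hw hwj ⊢
  have hRdef : Rp x t = td (x t) (x (parent x t)) := rfl
  have hmin : ∀ k < t, Rp x t ≤ td (x t) (x k) := (parent_mem x ht1).2
  have hplt : parent x t < t := (parent_mem x ht1).1
  have hfar : ∀ k < t, td (y l) (x t) < td (y l) (x k) := by
    intro k hk
    have h1 := hmin k hk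
    have h2 := td_triangle (x t) (y l) (x k)
    rw [td_comm (x t) (y l)] at h2
    linarith
  have hpar : parent w (t + 1 + l) = t := by
    apply parent_eq w (by omega)
    · intro k hk
      rcases lt_trichotomy k t with hkt | hkt | hkt
      · rw [hwj, hw t le_rfl, hw k hkt.le]
        exact (hfar k hkt).le
      · rw [hkt]
      · obtain ⟨i, rfl⟩ : ∃ i, k = t + 1 + i := ⟨k - t - 1, by omega⟩
        rw [hwj, hwj, hw t le_rfl]
        exact e3 i (by omega)
    · intro k hk
      rw [hwj, hw t le_rfl, hw k hk.le]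
      exact hfar k hk
  have hRp : Rp w (t + 1 + l) = td (y l) (x t) := by
    unfold Rp
    rw [hpar, hwj, hw t le_rfl]
  have hRpt : Rp w t = Rp x t := Rp_loc hw le_rfl
  have hpt : parent w t = parent x t := parent_loc hw le_rfl
  have hDC : ¬ DC w (t + 1 + l) := by
    rintro ⟨-, q, hq, hcase, hlt⟩
    rw [hpar] at hcase hlt
    rw [hwj, hw t le_rfl] at hlt
    rcases hcase with ⟨-, hqp⟩ | ⟨hq1, hqp⟩
    · rw [hqp, hpt, hw _ hplt.le] at hlt
      linarith
    · have hm := parent_mem w hq1
      rw [hqp] at hm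
      obtain ⟨i, rfl⟩ : ∃ i, q = t + 1 + i := ⟨q - t - 1, by omega⟩
      have hi : i < l := by omega
      rw [hwj] at hlt
      obtain ⟨-, hm2⟩ := hm
      rw [hwj, hw t le_rfl] at hm2
      by_cases hc : 3 * Rp x t ≤ td (y i) (x t)
      · apply e5 i hi
        refine ⟨hc, fun l' hl' => ?_⟩
        have := hm2 l' (by omega)
        rwa [hw l' hl'.le] at this
      · rw [not_le] at hc
        have := e6 i hi hc (fun i' hi' => by
          have := hm2 (t + 1 + i') (by omega)
          rwa [hwj] at this)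
        linarith
  refine ⟨by omega, hpar, ?_, ?_, by omega, ?_, ?_, ?_, ?_⟩
  · rw [hRpt, hRp]; linarith
  · rw [hRp]
    have h1 : V d (td (y l) (x t)) ≤ V d r := V_mono e2.le
    have h2 : (((t + 1 + l : ℕ) : ℝ) - t) = (l : ℝ) + 1 := by push_cast; ring
    rw [h2]
    have h3 : ((l : ℝ) + 1) * V d (td (y l) (x t)) ≤ ((l : ℝ) + 1) * V d r := by gcongr
    linarith
  · intro k
    cases k with
    | zero => simpa only [Function.iterate_zero, id_eq] using hDC
    | succ k =>
      rw [Function.iterate_succ_apply, hpar]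
      exact (UN_loc hw le_rfl).2 hUN k
  · rw [hRp]; linarith
  · rw [hRp]; linarith
  · rw [hRp]
    refine le_trans (measure_mono ?_) e7
    rintro z ⟨hz1, hz2⟩
    rw [hRp, hwj] at hz1
    refine ⟨hz1, fun i hi => ?_⟩
    have := hz2 (t + 1 + i) (by omega)
    rwa [hwj, hwj] at this

end Q287.NT
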