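import Pool.Agent.Q287.NT.Base

/-!
# Random nearest neighbour trees: the lemmas (statements with proofs in the docstrings)

Project NT (MP_959362_pr): for all large `d` the expected number of uncovered vertices of the random
nearest neighbour tree on `n` points of the torus `T^d` is at least `c n^(1/(3d))`, so it is not
polylogarithmic. Definitions and basic facts on `td`, `V`: `Pool/Agent/Q287/NT/Base.lean`
(`td` is irreducible there; use the lemmas `td_nonneg, td_comm, td_self, td_triangle, td_add_right,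
td_sub_zero, continuous_td, measurable_td, vol_ball, vol_ball', V_nonneg, V_le_one, V_mono, V_pos`,
or `unfold td` / `td_eq_dist`).
-/

set_option autoImplicit false

namespace Q287.NT

open MeasureTheory
open scoped ENNReal

/-! ## Geometry of the torus -/

/-- LIFT: the projection of the cube `(-1/2, 1/2]^d` onto the torus is measure preserving.
Proof: `AddCircle.measurePreserving_mk 1 (-1/2)` in each coordinate, `measurePreserving_pi`,
`Measure.restrict_pi_pi`. -/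
def S_LIFT : Prop := ∀ (d : ℕ) (S : Set (Tor d)), MeasurableSet S →
  volume S = volume {z : Fin d → ℝ | (∀ i, z i ∈ Set.Ioc (-(1 / 2) : ℝ) (1 / 2)) ∧
    (fun i => ((z i : ℝ) : UnitAddCircle)) ∈ S}

/-- EUC: small balls of the torus are Euclidean balls.
Proof: apply LIFT to `S = {td y 0 < s}`; for `|z i| ≤ 1/2` the norm of `(z i : UnitAddCircle)` is
`|z i|` (`AddCircle.norm_coe_eq_abs_iff`), so `td z 0 = sqrt (∑ z i ^ 2)`; conversely
`∑ z i ^ 2 < s ^ 2 ≤ 1/4` forces `|z i| < 1/2`. -/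
def S_EUC : Prop := ∀ (d : ℕ) (s : ℝ), 0 < s → s ≤ 1 / 2 →
  V d s = (volume {z : Fin d → ℝ | ∑ i, z i ^ 2 < s ^ 2}).toReal

/-- SCALE: scaling of the volume of small balls. Proof: EUC and `Measure.addHaar_smul` (the set for
`a * s` is `a •` the set for `s`). -/
def S_SCALE : Prop := ∀ (d : ℕ) (a s : ℝ), 0 < a → a ≤ 1 → 0 < s → s ≤ 1 / 2 →
  V d (a * s) = a ^ d * V d s

/-- SPH: spheres are null sets. Proof: translate to `c = 0` (`td_sub_zero`, invariance of the
volume), apply LIFT; on the cube the set is contained in the Euclidean sphere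
`{z | ∑ z i ^ 2 = s ^ 2}` of radius `|s|`, which is a null set (`Measure.addHaar_sphere` in
`EuclideanSpace ℝ (Fin d)` and `EuclideanSpace.volume_preserving_...`, or: by Fubini, for given
other coordinates at most two values of one coordinate are possible). -/
def S_SPH : Prop := ∀ (d : ℕ) (c : Tor d) (s : ℝ), 1 ≤ d → volume {z : Tor d | td z c = s} = 0

/-- LENS. Proof: translate to `c = 0`. Let `q' ∈ (-1/2, 1/2]^d` represent `q`, so
`|q'| = td q 0 ≤ 24 r ≤ 3/8`. For `x` in the set, with representative `z` of norm `|z| = td x 0 < r`,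
we have `|z i - q' i| ≤ 25 r < 1/2`, hence `td x q = |z - q'|` (Euclidean norm). Since
`|z - q'| < |q'|` we get `q' ≠ 0` and `2 z·q' > |z|^2 ≥ r'^2`. With `a = r'^2 / (2 |q'|^2)`:
`|z - a q'|^2 = |z|^2 - 2 a z·q' + a^2 |q'|^2 ≤ r^2 - r'^4 / (4 |q'|^2) ≤ r^2 (1 - 1/4608)`, because
`r'^4 ≥ r^4 / 2` (`(r'/r)^d = 1/2` and `d ≥ 4`) and `|q'| ≤ 24 r`. So by LIFT the volume is at most
that of a closed Euclidean ball of radius `kap * r`, which is `kap ^ d * V d r` (translation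
invariance, EUC and scaling; a closed and an open ball have the same volume, or use the strict
inequality `2 z·q' > |z|^2`). -/
def S_LENS : Prop := ∀ (d : ℕ) (c q : Tor d) (r' r : ℝ), 4 ≤ d → 0 < r' → 0 < r → r ≤ 1 / 64 →
  2 * r' ^ d = r ^ d → td q c ≤ 24 * r →
  volume {x : Tor d | r' ≤ td x c ∧ td x c < r ∧ td x q < td c q} ≤
    ENNReal.ofReal (kap ^ d * V d r)

/-- UNI: `V d (td z c)` is stochastically at least uniform. Proof: if `u ≤ 0` the set is empty, if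
`u > 1` trivial. Otherwise `A = {s | V d s < u}` contains `0`, is a lower set and is bounded above
(`V d s = 1` for `s > sqrt d`). Let `s* = sSup A`. The set is contained in `{td z c ≤ s*}`, whose
volume is `V d s* + 0` by SPH. Finally `V d s* ≤ u`: `{td < s*}` is the increasing union of the sets
`{td < s* - 1/(n+1)}`, each of volume `< u`. -/
def S_UNI : Prop := ∀ (d : ℕ) (c : Tor d) (u : ℝ), 1 ≤ d →
  volume {z : Tor d | V d (td z c) < u} ≤ ENNReal.ofReal u

/-- EXPU: exponential moment of a variable which is stochastically at least uniform.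
Proof: layer cake: `exp (-a Y) = ∫_Y^∞ a exp (-a u) du`, so by Tonelli
`∫ exp (-a Y) = ∫_0^∞ μ {Y < u} a exp (-a u) du ≤ ∫_0^∞ u a exp (-a u) du = 1 / a`.
(Or `lintegral_comp_eq_lintegral_meas_lt_mul`-type lemmas.) -/
def S_EXPU : Prop := ∀ (X : Type) [MeasurableSpace X] (μ : Measure X) [IsProbabilityMeasure μ]
  (Y : X → ℝ) (a : ℝ), Measurable Y → (∀ x, 0 ≤ Y x) → (∀ u, μ {x | Y x < u} ≤ ENNReal.ofReal u) →
  0 < a → ∫⁻ x, ENNReal.ofReal (Real.exp (-a * Y x)) ∂μ ≤ ENNReal.ofReal (1 / a)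

/-- I1. Proof: put `r_k = 2 ^ (k/d) * r` for `k ≤ 5d`, so `r_{5d} = 32 r ≤ 1/2` and, by SCALE,
`V d r_k = 2 ^ k * V d r`. The ball of radius `24 r` is covered by the ball of radius `r` and the
shells `{r_k ≤ td z c < r_{k+1}}`, `k < 5d`. On the small ball the terms are at most `1`, so it
contributes at most `l * V d r ≤ 1`. On the shell `k` we have `V d (td z c) ≥ 2 ^ k V d r`
(`V_mono`), so `∑_{i<l} (1 - V)^i ≤ 1 / (2 ^ k V d r)` (geometric sum), and its volume is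
`V d r_{k+1} - V d r_k = 2 ^ k V d r`; it contributes at most `1`. -/
def S_I1 : Prop := ∀ (d : ℕ) (c : Tor d) (r : ℝ) (l : ℕ), 1 ≤ d → 0 < r → r ≤ 1 / 64 →
  (l : ℝ) * V d r ≤ 1 →
  ∑ i ∈ Finset.range l, ∫⁻ z in {z : Tor d | td z c < 24 * r},
    ENNReal.ofReal ((1 - V d (td z c)) ^ i) ≤ ENNReal.ofReal (5 * d + 2)

/-- E2. Proof: `0 ≤ 1 - V ≤ exp (-V)`, so the integrand is at most
`exp (-l V / 2) * exp (-l V / 2)` with `V = V d (td z c)`. On the set `V ≥ V d (3 r') = 3^d V d r'`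
(SCALE with `a = 1/3`, `s = 3 r'`), so `l V / 2 ≥ 3^d l V d r' / 2 ≥ 3^d / 64`. And
`∫ exp (-(l/2) V d (td z c)) ≤ 2 / l ≤ 64 V d r'` by EXPU and UNI (`Y z = V d (td z c)`, which is
measurable because `V d` is monotone). -/
def S_E2 : Prop := ∀ (d : ℕ) (c : Tor d) (r' : ℝ) (l : ℕ), 1 ≤ d → 0 < r' → r' ≤ 1 / 64 →
  1 ≤ 32 * (l : ℝ) * V d r' →
  ∫⁻ z in {z : Tor d | 3 * r' ≤ td z c}, ENNReal.ofReal ((1 - V d (td z c)) ^ l) ≤
    ENNReal.ofReal (64 * V d r' * Real.exp (-((3 : ℝ) ^ d / 64)))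

/-! ## Sequences of independent points -/

/-- RES: resampling one coordinate. Proof: the map `(a, y) ↦ update y l a` sends
`μ ⊗ infinitePi` to `infinitePi` (`Measure.eq_infinitePi` on boxes); then Tonelli. -/
def S_RES : Prop := ∀ (X : Type) [MeasurableSpace X] (μ : Measure X) [IsProbabilityMeasure μ]
  (l : ℕ) (f : (ℕ → X) → ℝ≥0∞), Measurable f →
  ∫⁻ y, f y ∂(Measure.infinitePi fun _ : ℕ => μ) =
    ∫⁻ y, ∫⁻ a, f (Function.update y l a) ∂μ ∂(Measure.infinitePi fun _ : ℕ => μ)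

/-- BOX: `Measure.infinitePi_pi` with the finset `range k`. -/
def S_BOX : Prop := ∀ (X : Type) [MeasurableSpace X] (μ : Measure X) [IsProbabilityMeasure μ]
  (k : ℕ) (B : Set X), MeasurableSet B →
  (Measure.infinitePi fun _ : ℕ => μ) {y | ∀ i < k, y i ∈ B} = μ B ^ k

/-- GLUE: gluing two independent sequences. Proof: `Measure.eq_infinitePi` on boxes: the preimage of
the box `∏_{i ∈ s} T_i` is the product of the boxes over `{i ∈ s, i ≤ t}` and over
`{i - t - 1 : i ∈ s, i > t}`. -/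
def S_GLUE : Prop := ∀ (X : Type) [MeasurableSpace X] (μ : Measure X) [IsProbabilityMeasure μ]
  (t : ℕ), MeasurePreserving (fun p : (ℕ → X) × (ℕ → X) => glue t p.1 p.2)
    ((Measure.infinitePi fun _ : ℕ => μ).prod (Measure.infinitePi fun _ : ℕ => μ))
    (Measure.infinitePi fun _ : ℕ => μ)

/-! ## The four error estimates -/

/-- PA. Proof: union bound over `i < l`. For fixed `i` apply RES to coordinate `i` (and `l ≠ i`):
the probability is `∫ 1{y l ∈ shell} vol {a | td (y l) a < td (y l) c} dPP`, and that volume is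
`V d (td (y l) c) ≤ V d r` (`vol_ball'`); the law of `y l` is the volume. -/
def S_PA : Prop := ∀ (d : ℕ) (c : Tor d) (r' r : ℝ) (l : ℕ),
  PP d {y | (r' ≤ td (y l) c ∧ td (y l) c < r) ∧ ∃ i < l, td (y l) (y i) < td (y l) c} ≤
    (l : ℝ≥0∞) * ENNReal.ofReal (V d r) * volume {z : Tor d | r' ≤ td z c ∧ td z c < r}

/-- PB. Proof: union bound over `i < l`; for fixed `i` the points `y i` and `y l` are independent
(RES for coordinate `i`, then the law of `y l`; or `Measure.infinitePi_pi`). -/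
def S_PB : Prop := ∀ (d : ℕ) (c : Tor d) (C : Set (Tor d)) (r' r : ℝ) (l : ℕ), MeasurableSet C →
  PP d {y | (r' ≤ td (y l) c ∧ td (y l) c < r) ∧ ∃ i < l, y i ∈ C} ≤
    (l : ℝ≥0∞) * volume C * volume {z : Tor d | r' ≤ td z c ∧ td z c < r}

/-- PC. Proof: union bound over `i < l`. For fixed `i` let
`A = {td (y i) c < D and ∀ i' < i, td (y i) c ≤ td (y i) (y i')}`; it does not depend on `y l`. By
RES for coordinate `l` the probability is `∫ 1_A vol {x | r' ≤ td x c < r, td x (y i) < td c (y i)}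
dPP ≤ L * PP A`. And `PP A = ∫_{td z c < D} (1 - V d (td z c)) ^ i dz`: RES for coordinate `i`,
Tonelli, and BOX with `B = {a | td z c ≤ td z a}`, whose volume is `1 - V d (td z c)`. -/
def S_PC : Prop := ∀ (d : ℕ) (c : Tor d) (D r' r : ℝ) (l : ℕ) (L : ℝ≥0∞),
  (∀ q : Tor d, td q c < D →
    volume {x : Tor d | r' ≤ td x c ∧ td x c < r ∧ td x q < td c q} ≤ L) →
  PP d {y | (r' ≤ td (y l) c ∧ td (y l) c < r) ∧ ∃ i < l, td (y i) c < D ∧
      (∀ i' < i, td (y i) c ≤ td (y i) (y i')) ∧ td (y l) (y i) < td c (y i)} ≤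
    L * ∑ i ∈ Finset.range l, ∫⁻ z in {z : Tor d | td z c < D},
      ENNReal.ofReal ((1 - V d (td z c)) ^ i)

/-- PD. Proof: Markov: with `F y = vol {z | 3 td (y l) c ≤ td z (y l) and ∀ i < l, …}` the
probability is at most `θ⁻¹ ∫ 1{y l ∈ shell} F y dPP`. By RES for coordinate `l` and Tonelli the
integral is `∫_{a ∈ shell} ∫_{3 td a c ≤ td z a} PP {∀ i < l, td z a ≤ td z (y i)} dz da`, and the
inner probability is `(1 - V d (td z a)) ^ l` (BOX, `vol_ball'`); since `3 td a c ≥ 3 r'` the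
integral over `z` is at most `E`. -/
def S_PD : Prop := ∀ (d : ℕ) (c : Tor d) (r' r : ℝ) (l : ℕ) (E θ : ℝ≥0∞), θ ≠ 0 → θ ≠ ⊤ →
  (∀ a : Tor d, ∫⁻ z in {z : Tor d | 3 * r' ≤ td z a},
    ENNReal.ofReal ((1 - V d (td z a)) ^ l) ≤ E) →
  PP d {y | (r' ≤ td (y l) c ∧ td (y l) c < r) ∧ θ < volume {z : Tor d |
      3 * td (y l) c ≤ td z (y l) ∧ ∀ i < l, td z (y l) ≤ td z (y i)}} ≤
    (E / θ) * volume {z : Tor d | r' ≤ td z c ∧ td z c < r}

/-- KEY: the `l`-th new point is a good child in the shell `[r', r)` with probability at least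
`V d r / 4`. Proof: `vol shell = V d r / 2` (SCALE with `a = r'/r`, `a ^ d = 1/2`), which is also
`PP {y l ∈ shell}`. Outside the good event but with `y l` in the shell one of the following happens:
(A) the event of PA; `l V d r ≤ 1/4`, so its probability is at most `vol shell / 4`;
(q) `y l` is in the lens of `q` (LENS, `td q c = R ≤ 8 r' ≤ 24 r`): at most `kap^d V d r`;
(B) the event of PB: `vol C ≤ V d R / (4 * 8^d) ≤ V d r' / 4 = V d r / 8` (SCALE), so at most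
`vol shell / 32`;
(C) the event of PC with `D = 3 R ≤ 24 r`, `L = kap^d V d r` (LENS): at most
`kap^d V d r (5 d + 2)` by I1 (use `{td z c < 3 R} ⊆ {td z c < 24 r}`, as `R ≤ 8 r' ≤ 8 r`);
(D) the event of PD with `θ = V d r' / (4 * 8^d)` (for `y l` in the shell the threshold
`V d (td (y l) c) / (4 * 8^d)` is at least `θ`) and `E` from E2: `V d r ≤ 1/16` (SCALE and
`V_le_one`: `V d (1/64) = 32^{-d} V d (1/2)`), so `l ≥ 1/(8 V d r) - 1 ≥ 1/(16 V d r)` and
`32 l V d r' = 16 l V d r ≥ 1`; at most `256 * 8^d * exp (-3^d/64) * vol shell ≤ vol shell / 16`.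
The sum of all is at most `vol shell * (1/4 + 1/32 + 1/16 + 2 kap^d (5 d + 3)) ≤ vol shell / 2`.
Measurability of the events is not needed for the union bound if one writes the shell event as a
subset of a finite union. -/
def S_KEY : Prop := ∀ (d : ℕ) (c q : Tor d) (C : Set (Tor d)) (R r' r : ℝ) (l : ℕ), OK d →
  MeasurableSet C → 0 < R → R ≤ 1 / 16 → td c q = R →
  volume C ≤ ENNReal.ofReal (V d R / (4 * 8 ^ d)) → R / 8 ≤ r' → r ≤ R / 4 → 0 < r →
  2 * r' ^ d = r ^ d → 1 / 8 ≤ ((l : ℝ) + 1) * V d r → ((l : ℝ) + 1) * V d r ≤ 1 / 4 →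
  ENNReal.ofReal (V d r / 4) ≤ PP d (Ev c q C R r' r l)

/-! ## The tree -/

/-- PAR: basic facts on the parent function (`Nat.sInf_mem`, `Nat.sInf_le`, existence of a minimiser
on a finite set). -/
def S_PAR : Prop := ∀ (d : ℕ) (x : ℕ → Tor d), parent x 0 = 0 ∧
  (∀ i, 1 ≤ i → parent x i < i ∧ ∀ k < i, td (x i) (x (parent x i)) ≤ td (x i) (x k)) ∧
  (∀ i j, j < i → (∀ k < i, td (x i) (x j) ≤ td (x i) (x k)) →
    (∀ k < j, td (x i) (x j) < td (x i) (x k)) → parent x i = j)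

/-- LOC: all notions at time `t` depend only on the points up to `t`. Proof: `parent x i` depends
only on `x 0, …, x i`; iterates of the parent stay at most `t`. For `Gen` use induction on `m`
(only vertices `t < j` occur). -/
def S_LOC : Prop := ∀ (d : ℕ) (x x' : ℕ → Tor d) (t : ℕ), (∀ i ≤ t, x i = x' i) →
  parent x t = parent x' t ∧ (UN x t ↔ UN x' t) ∧ Rp x t = Rp x' t ∧ Far x t = Far x' t ∧
  (Good x t ↔ Good x' t) ∧ ∀ (t0 : ℕ) (r0 : ℝ) (m : ℕ), (Gen x t0 r0 m t ↔ Gen x' t0 r0 m t)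

/-- UNC: `UN` vertices are uncovered. Proof: suppose `CovBy x n u p q` with `u` an iterated parent of
`v`. Let `D = td (x p) (x q)`; so `td (x u) (x p) < D`, `td (x u) (x q) < D`, and `u ≠ p`, `p ≠ q`
(distances). We show `DC x u`. Case 1: `p = parent x u`, `1 ≤ u` (then `p < u`). If `q` is the
parent of `p` (`1 ≤ p`), then `q < p < u` and `DC x u` holds. If `p` is the parent of `q`, `1 ≤ q`:
if `q < u`, `DC x u` holds; `q ≠ u` by assumption; if `u < q`, then `td (x q) (x p) ≤ td (x q) (x u)`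
by minimality, contradiction. Case 2: `u = parent x p`, `1 ≤ p`, so `u < p`. If `q = parent x p`
then `q = u`, contradiction. So `parent x q = p`, `1 ≤ q`, and `u < p < q`; minimality gives
`td (x q) (x p) ≤ td (x q) (x u)`, contradiction. (Facts PAR.) -/
def S_UNC : Prop := ∀ (d : ℕ) (x : ℕ → Tor d) (n v : ℕ), v < n → UN x v → v ∈ Unc x n

/-- STEP: the event `Ev` produces a good child. Proof: let `w = glue t x y`, `j = t + 1 + l`,
`c = x t`, `p = parent x t`, `R = Rp x t = td c (x p)`; `w j = y l`.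
(1) `parent w j = t`: `td (w j) c < r ≤ R / 4`; for `k < t`: `td (x k) c ≥ R` (minimality of `p`,
PAR), so `td (w j) (x k) ≥ R - R/4 > td (w j) c`; for `k = t + 1 + i`, `i < l`, use `Ev`. Then PAR.
(2) `Rp w j = td (y l) c ∈ [r', r)`, so `Rp w j ≥ R / 8`, `0 < Rp w j ≤ 1/16` and
`(j - t) V (Rp w j) ≤ (l + 1) V r ≤ 1` (`V_mono`).
(3) `Far w j` is contained in the set of the last condition of `Ev` (take `l' = t + 1 + i`), and
`Rp w j = td (y l) c`.
(4) `UN w j`: the iterates are `j`, then those of `t`; `UN w t ↔ UN x t` by LOC. `¬ DC w j`: suppose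
`q < j` is a witness. If `q = parent w t = p` (LOC) then `td (y l) (x p) < td c (x p)`,
contradiction with `Ev`. If `parent w q = t`, `1 ≤ q`: then `t < q` (PAR), `q = t + 1 + i`, `i < l`,
and by minimality `td (y i) c ≤ td (y i) (y i')` for `i' < i` and `td (y i) c ≤ td (y i) (x k)` for
`k < t`. If `3 R ≤ td (y i) c` then `y i ∈ Far x t`, contradiction. So `td (y i) c < 3 R` and `Ev`
gives `td c (y i) ≤ td (y l) (y i)`, contradiction. -/
def S_STEP : Prop := ∀ (d : ℕ) (x y : ℕ → Tor d) (t l : ℕ) (r' r : ℝ), Good x t →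
  y ∈ Ev (x t) (x (parent x t)) (Far x t) (Rp x t) r' r l →
  Rp x t / 8 ≤ r' → r ≤ Rp x t / 4 → ((l : ℝ) + 1) * V d r ≤ 1 →
  Step (glue t x y) t (t + 1 + l)

/-- MEAS: measurability. Proof: all sets are countable Boolean combinations of the sets
`{x | td (x i) (x j) ≤ td (x i) (x k)}` (first show that `{x | parent x i = j}` is measurable, then
that `parent x i` is a measurable function to `ℕ`), of sets `{x | f x ≤ V d (Rp x t)}` (`V d` is
monotone, hence measurable), and of `x ↦ volume (Far x t)`, which is measurable by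
`measurable_measure_prodMk_left` applied to the measurable set `{(x, z) | z ∈ Far x t}`.
`Far x t` itself is closed. -/
def S_MEAS : Prop := ∀ (d : ℕ), (∀ (x : ℕ → Tor d) (t : ℕ), MeasurableSet (Far x t)) ∧
  (∀ t j : ℕ, MeasurableSet {x : ℕ → Tor d | Step x t j}) ∧
  (∀ (t0 : ℕ) (r0 : ℝ) (m j : ℕ), MeasurableSet {x : ℕ → Tor d | Gen x t0 r0 m j})

/-- MEASU: measurability of the number of uncovered vertices. Proof: `ncard = ∑_{v < n} indicator`;
`{x | v ∈ Unc x n}` is a countable Boolean combination of measurable sets (see MEAS; note that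
`parent x` depends on `x`, so `{x | (parent x)^[k] v = u}` is measurable by induction on `k`). -/
def S_MEASU : Prop := ∀ (d n : ℕ), Measurable fun x : ℕ → Tor d => ((Unc x n).ncard : ℝ)

/-! ## Branching -/

/-- BR: a good vertex has in expectation at least two good children. Proof: `R = Rp x t`,
`r_k = (R/4) 2 ^ (-k/d)` for `k ≤ 128`, so `r_128 ≥ R/8` (`d ≥ 128`), `2 r_{k+1}^d = r_k^d` and
`V d r_k = 2^{-k} v` with `v = V d (R/4) ≤ V d (1/64) ≤ 1/16` (SCALE, `V_le_one`). For `k < 128` and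
`l` with `2^k/(8 v) < l + 1 ≤ 2^{k+1}/(8 v)` KEY (with `c = x t`, `q = x (parent x t)`,
`C = Far x t`, `r = r_k`, `r' = r_{k+1}`) and STEP give `PP {Step (glue t x y) t (t+1+l)} ≥ 2^{-k} v/4`.
There are at least `2^k/(8 v) - 1 ≥ 2^k/(16 v)` such `l`, so window `k` contributes at least `1/64`,
and the 128 windows are disjoint. -/
def S_BR : Prop := ∀ (d : ℕ) (x : ℕ → Tor d) (t : ℕ), OK d → Good x t →
  2 ≤ ∑' l : ℕ, PP d {y | Step (glue t x y) t (t + 1 + l)}

/-- REC. Proof: it suffices to show `2 * ∑' t, PP {Gen m t} ≤ ∑' j, PP {Gen (m+1) j}` (and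
`∑' j, PP {Gen 0 j} ≥ PP {Gen 0 t0}`). The event `Gen (m+1) j` is the disjoint union over `t < j` of
`{Gen m t} ∩ {Step x t j}` (disjoint because `Step x t j` implies `parent x j = t`), so
`∑' j, PP {Gen (m+1) j} = ∑' t, ∑' j, PP {Gen m t ∧ Step x t j}
≥ ∑' t, ∑' l, PP {Gen m t ∧ Step x t (t+1+l)}`, and by GLUE, Tonelli and LOC
(`Gen (glue t x y) m t ↔ Gen x m t`) each term is `∫ 1{Gen x m t} PP {y | Step (glue t x y) t
(t+1+l)} dPP(x)`; `Gen x m t` implies `Good x t`, so the sum over `l` is at least `2 PP {Gen m t}`. -/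
def S_REC : Prop := ∀ (d t0 : ℕ) (r0 : ℝ) (m : ℕ),
  (∀ (x : ℕ → Tor d) (t : ℕ), Good x t → 2 ≤ ∑' l : ℕ, PP d {y | Step (glue t x y) t (t + 1 + l)}) →
  2 ^ m * PP d {x | Good x t0 ∧ r0 ≤ Rp x t0} ≤ ∑' j : ℕ, PP d {x | Gen x t0 r0 m j}

/-- TIME. Proof: induction on `m`. For `Step x t j`: `Rp x j ≥ Rp x t / 8 ≥ r0 / 8^(m+1)`, so
`V d (Rp x j) ≥ V d (r0 / 8^(m+1)) = V d r0 / 8^(d (m+1))` (V_mono, SCALE) and
`j - t ≤ 1 / V d (Rp x j) ≤ 8^(d (m+1)) / V d r0`; `2 * 8^(d m) + 8^(d (m+1)) ≤ 2 * 8^(d (m+1))`. -/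
def S_TIME : Prop := ∀ (d : ℕ) (x : ℕ → Tor d) (t0 : ℕ) (r0 : ℝ) (m j : ℕ), 1 ≤ d → 0 < r0 →
  r0 ≤ 1 / 16 → Gen x t0 r0 m j →
  Good x j ∧ r0 / 8 ^ m ≤ Rp x j ∧ (j : ℝ) ≤ t0 + 2 * 8 ^ (d * m) / V d r0

/-- LOW. Proof: for `j` with `Gen x t0 r0 m j` we have `j < n` (TIME) and `j ∈ Unc x n` (UNC and
`Good x j`), so `∑' j, 1{Gen x t0 r0 m j} ≤ ncard (Unc x n)` pointwise; integrate
(`lintegral_tsum`, MEAS, `ofReal_integral_eq_lintegral_ofReal`, MEASU, `0 ≤ ncard ≤ n`). -/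
def S_LOW : Prop := ∀ (d t0 : ℕ) (r0 : ℝ) (m n : ℕ), 1 ≤ d → 0 < r0 → r0 ≤ 1 / 16 →
  (t0 : ℝ) + 2 * 8 ^ (d * m) / V d r0 < n →
  ∑' j : ℕ, PP d {x | Gen x t0 r0 m j} ≤ ENNReal.ofReal (∫ x, ((Unc x n).ncard : ℝ) ∂(PP d))

/-! ## The initial configuration -/

/-- PATH: inside the complement of a ball every point can be joined to the point `(1/2, …, 1/2)` by
a chain with small steps. Proof: let `y' ∈ (-1/2, 1/2]^d` represent `y` and
`y'(u) i = (1 - u) y' i + u s_i / 2` with `s_i = 1` if `y' i ≥ 0` and `-1` otherwise (`u ∈ [0,1]`).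
Then `|y'(u) i| = (1 - u) |y' i| + u / 2 ∈ [|y' i|, 1/2]`, so the distance to `0` of its class is at
least that of `y`; its class at `u = 1` is the class of `(1/2, …, 1/2)` (as `-1/2 ≡ 1/2`). Take
`u = k / K` with `K` large: consecutive distances are at most `sqrt d / K < η`. -/
def S_PATH : Prop := ∀ (d : ℕ) (y : Tor d) (R η : ℝ), 0 < η → R ≤ td y 0 →
  ∃ (K : ℕ) (z : ℕ → Tor d), z 0 = y ∧ z K = (fun _ => ((1 / 2 : ℝ) : UnitAddCircle)) ∧
    (∀ k < K, td (z k) (z (k + 1)) < η) ∧ ∀ k ≤ K, R ≤ td (z k) 0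

/-- WALK: a walk with small steps outside of a ball which visits the neighbourhood of all points
outside of the ball. Proof: the set `{y | R ≤ td y 0}` is totally bounded (the torus is compact), so
there is a finite set `F` of its points such that every one of its points is at distance `< η` of
`F`. By induction on `F` (PATH and reversed PATH) there is a walk with steps `< η` inside the set,
starting in `z1`, ending in `(1/2, …, 1/2)` and visiting all points of `F`. -/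
def S_WALK : Prop := ∀ (d : ℕ) (z1 : Tor d) (R η : ℝ), 0 < η → R ≤ td z1 0 →
  ∃ (N : ℕ) (z : ℕ → Tor d), z 0 = z1 ∧ (∀ k < N, td (z k) (z (k + 1)) < η) ∧
    (∀ k ≤ N, R ≤ td (z k) 0) ∧ ∀ y, R ≤ td y 0 → ∃ k ≤ N, td y (z k) < η

/-- INIT: a good vertex exists with positive probability. Proof: let `s = 1/32`, `η = s/10`,
`δ = s/100`. Root `z_0 = 0`; `z_1 = (5 s / 2, 0, …, 0)`, then the walk of WALK with `R = 5 s / 2`
started in `z_1` (points `z_1, …, z_{N+1}`), finally `z_{N+2} = (-s, 0, …, 0)`; `t0 = N + 2`.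
Let `x` satisfy `td (x i) (z_i) < δ` for all `i ≤ t0` (probability `(V d δ)^(t0+1) > 0`, BOX-like:
`Measure.infinitePi_pi`). Then: `parent x 1 = 0`. For `2 ≤ k < t0`: `td (x k) (x (k-1)) < η + 2δ`
`< 5 s/2 - 2 δ ≤ td (x k) (x 0)`, so `parent x k ≠ 0`. `parent x t0 = 0`: `td (x t0) (x 0) ≤ s + 2δ`
and for `1 ≤ k < t0` `td (x t0) (x k) ≥ 5 s/2 - s - 2 δ`. `Rp x t0 = td (x t0) (x 0)` is in
`[s - 2δ, s + 2δ]`. `¬ DC x t0`: a witness `q` has `parent x q = 0`, `1 ≤ q < t0`, so `q = 1`; but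
`td (x t0) (x 1) ≥ 7 s/2 - 2δ ≥ 5 s/2 + 2δ ≥ td (x 0) (x 1)`. `¬ DC x 0`. So `UN x t0`.
`Far x t0` is empty: let `z` be in it. If `5 s/2 ≤ td z 0`, some `z_k` (`1 ≤ k ≤ N + 1`) is at
distance `< η` of `z`, so `td z (x k) < η + δ`, but
`td z (x t0) ≥ 5 s/2 - s - δ > η + δ`, contradiction. So `td z 0 < 5 s/2` and
`td z (x t0) ≤ td z (x 0) < 5 s/2 + δ < 3 (s - 2δ) ≤ 3 Rp x t0`, contradiction. `r0 = s/2`. -/
def S_INIT : Prop := ∀ (d : ℕ), 1 ≤ d → ∃ (t0 : ℕ) (r0 : ℝ), 0 < r0 ∧ r0 ≤ 1 / 16 ∧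
  0 < PP d {x | Good x t0 ∧ r0 ≤ Rp x t0}

/-! ## Analysis -/

/-- EVOK: all large dimensions are `OK`. Proof: `0 < kap < 1`, so `kap^d (10 d + 6) → 0`;
`3^d / 64 - d log 8 → ∞`. -/
def S_EVOK : Prop := ∃ d0 : ℕ, ∀ d ≥ d0, OK d

/-- POW. Proof: let `n ≥ 1`. If `n < A + B`, then `n^(1/(3d)) ≤ A + B + 1` and `1 ≤ f n`. Otherwise
let `m` be maximal with `A + B 8^(d m) ≤ n`; then `n < A + B 8^(d (m+1)) ≤ (A + B) 8^(d (m+1))`, so
`n^(1/(3d)) ≤ (A + B)^(1/(3d)) 2^(m+1)`, and `f n ≥ p 2^m`. -/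
def S_POW : Prop := ∀ (f : ℕ → ℝ) (d : ℕ) (A B p : ℝ), 1 ≤ d → 0 ≤ A → 0 < B → 0 < p →
  (∀ n, 1 ≤ n → 1 ≤ f n) → (∀ m n : ℕ, A + B * 8 ^ (d * m) ≤ n → p * 2 ^ m ≤ f n) →
  ∃ c : ℝ, 0 < c ∧ ∀ n : ℕ, 1 ≤ n → c * (n : ℝ) ^ (1 / (3 * d : ℝ)) ≤ f n

/-- LOG: a power of `n` is not polylogarithmic (`isLittleO_log_rpow_atTop` or
`isLittleO_pow_log_id_atTop`). -/
def S_LOG : Prop := ∀ (c a : ℝ) (C : ℝ) (k : ℕ), 0 < c → 0 < a →
  ∃ n : ℕ, 2 ≤ n ∧ C * Real.log n ^ k < c * (n : ℝ) ^ a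

end Q287.NT
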