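import Pool.Agent.Q287.NT.Stm

set_option autoImplicit false

namespace Q287.NT

open MeasureTheory
open scoped ENNReal

variable {d : ℕ}

lemma parent_zero (x : ℕ → Tor d) : parent x 0 = 0 := by
  have : {j | j < 0 ∧ ∀ k < 0, td (x 0) (x j) ≤ td (x 0) (x k)} = ∅ := by
    ext j
    simp
  unfold parent
  rw [this, Nat.sInf_empty]

lemma parent_mem (x : ℕ → Tor d) {i : ℕ} (hi : 1 ≤ i) :
    parent x i < i ∧ ∀ k < i, td (x i) (x (parent x i)) ≤ td (x i) (x k) := by
  have hne : {j | j < i ∧ ∀ k < i, td (x i) (x j) ≤ td (x i) (x k)}.Nonempty := by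
    obtain ⟨j, hj, hm⟩ := Finset.exists_min_image (Finset.range i) (fun k => td (x i) (x k))
      ⟨0, Finset.mem_range.2 hi⟩
    refine ⟨j, by simpa using hj, fun k hk => hm k (by simpa using hk)⟩
  exact Nat.sInf_mem hne

lemma parent_eq (x : ℕ → Tor d) {i j : ℕ} (hj : j < i)
    (h1 : ∀ k < i, td (x i) (x j) ≤ td (x i) (x k))
    (h2 : ∀ k < j, td (x i) (x j) < td (x i) (x k)) : parent x i = j := by
  apply le_antisymm
  · exact Nat.sInf_le ⟨hj, h1⟩
  · by_contra hcon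
    rw [not_le] at hcon
    have h3 := h2 _ hcon
    have h4 := (parent_mem x (by omega : 1 ≤ i)).2 j hj
    linarith

theorem t_PAR : S_PAR := fun _ x => ⟨parent_zero x, fun _ hi => parent_mem x hi,
  fun _ _ hj h1 h2 => parent_eq x hj h1 h2⟩

lemma parent_le (x : ℕ → Tor d) (i : ℕ) : parent x i ≤ i := by
  rcases Nat.eq_zero_or_pos i with rfl | h
  · rw [parent_zero]
  · exact (parent_mem x h).1.le

lemma iter_le (x : ℕ → Tor d) (v k : ℕ) : (parent x)^[k] v ≤ v := by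
  induction k with
  | zero => simp only [Function.iterate_zero, id_eq, le_refl]
  | succ k ih => rw [Function.iterate_succ_apply']; exact (parent_le x _).trans ih

section loc

variable {x x' : ℕ → Tor d} {t : ℕ}

lemma parent_loc (h : ∀ i ≤ t, x i = x' i) {i : ℕ} (hi : i ≤ t) : parent x i = parent x' i := by
  unfold parent
  congr 1
  ext j
  constructor
  · rintro ⟨h1, h2⟩
    refine ⟨h1, fun k hk => ?_⟩
    rw [← h i hi, ← h j (by omega), ← h k (by omega)]
    exact h2 k hk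
  · rintro ⟨h1, h2⟩
    refine ⟨h1, fun k hk => ?_⟩
    rw [h i hi, h j (by omega), h k (by omega)]
    exact h2 k hk

lemma iter_loc (h : ∀ i ≤ t, x i = x' i) {v : ℕ} (hv : v ≤ t) (k : ℕ) :
    (parent x)^[k] v = (parent x')^[k] v := by
  induction k with
  | zero => simp only [Function.iterate_zero, id_eq]
  | succ k ih =>
    have h1 : (parent x)^[k + 1] v = parent x ((parent x)^[k] v) :=
      Function.iterate_succ_apply' _ _ _
    have h2 : (parent x')^[k + 1] v = parent x' ((parent x')^[k] v) :=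
      Function.iterate_succ_apply' _ _ _
    have h3 := parent_loc h ((iter_le x v k).trans hv)
    rw [h1, h2, ← ih]
    exact h3

lemma DC_loc1 (h : ∀ i ≤ t, x i = x' i) {u : ℕ} (hu : u ≤ t) (hd : DC x u) : DC x' u := by
  obtain ⟨h1, q, hq, h2, h3⟩ := hd
  have hp := parent_loc h hu
  have hpl : parent x u ≤ t := (parent_le x u).trans hu
  refine ⟨h1, q, hq, ?_, ?_⟩
  · rw [← hp, ← parent_loc h hpl, ← parent_loc h (by omega : q ≤ t)]
    exact h2
  · rw [← hp, ← h u hu, ← h q (by omega), ← h _ hpl]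
    exact h3

lemma DC_loc (h : ∀ i ≤ t, x i = x' i) {u : ℕ} (hu : u ≤ t) : DC x u ↔ DC x' u :=
  ⟨DC_loc1 h hu, DC_loc1 (fun i hi => (h i hi).symm) hu⟩

lemma UN_loc (h : ∀ i ≤ t, x i = x' i) {u : ℕ} (hu : u ≤ t) : UN x u ↔ UN x' u := by
  unfold UN
  refine forall_congr' fun k => not_congr ?_
  rw [← iter_loc h hu k]
  exact DC_loc h ((iter_le x u k).trans hu)

lemma Rp_loc (h : ∀ i ≤ t, x i = x' i) {u : ℕ} (hu : u ≤ t) : Rp x u = Rp x' u := by
  unfold Rp
  rw [← parent_loc h hu, ← h u hu, ← h _ ((parent_le x u).trans hu)]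

lemma Far_loc (h : ∀ i ≤ t, x i = x' i) {u : ℕ} (hu : u ≤ t) : Far x u = Far x' u := by
  unfold Far
  rw [← Rp_loc h hu, ← h u hu]
  ext z
  simp only [Set.mem_ofPred_eq]
  refine and_congr_right fun _ => forall_congr' fun l => forall_congr' fun hl => ?_
  rw [h l (by omega)]

lemma Good_loc (h : ∀ i ≤ t, x i = x' i) {u : ℕ} (hu : u ≤ t) : Good x u ↔ Good x' u := by
  unfold Good
  rw [UN_loc h hu, Rp_loc h hu, Far_loc h hu]

lemma Step_loc (h : ∀ i ≤ t, x i = x' i) {s u : ℕ} (hu : u ≤ t) : Step x s u ↔ Step x' s u := by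
  unfold Step
  constructor
  · rintro ⟨h1, h2⟩
    refine ⟨h1, ?_⟩
    rw [← parent_loc h hu, ← Rp_loc h (by omega : s ≤ t), ← Rp_loc h hu, ← Good_loc h hu]
    exact h2
  · rintro ⟨h1, h2⟩
    refine ⟨h1, ?_⟩
    rw [parent_loc h hu, Rp_loc h (by omega : s ≤ t), Rp_loc h hu, Good_loc h hu]
    exact h2

lemma Gen_loc1 (h : ∀ i ≤ t, x i = x' i) (t0 : ℕ) (r0 : ℝ) (m : ℕ) :
    ∀ u ≤ t, Gen x t0 r0 m u → Gen x' t0 r0 m u := by
  induction m with
  | zero =>
    rintro u hu ⟨h1, h2, h3⟩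
    subst h1
    exact ⟨rfl, (Good_loc h hu).1 h2, by rw [← Rp_loc h hu]; exact h3⟩
  | succ m ih =>
    rintro u hu ⟨s, hs, h1, h2⟩
    exact ⟨s, hs, ih s (by omega) h1, (Step_loc h hu).1 h2⟩

lemma Gen_loc (h : ∀ i ≤ t, x i = x' i) (t0 : ℕ) (r0 : ℝ) (m : ℕ) {u : ℕ} (hu : u ≤ t) :
    Gen x t0 r0 m u ↔ Gen x' t0 r0 m u :=
  ⟨Gen_loc1 h t0 r0 m u hu, Gen_loc1 (fun i hi => (h i hi).symm) t0 r0 m u hu⟩

end loc

theorem t_LOC : S_LOC := fun _ _ _ _ h => ⟨parent_loc h le_rfl, UN_loc h le_rfl, Rp_loc h le_rfl,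
  Far_loc h le_rfl, Good_loc h le_rfl, fun t0 r0 m => Gen_loc h t0 r0 m le_rfl⟩

theorem t_UNC : S_UNC := by
  intro d x n v hv hUN
  refine ⟨hv, ?_⟩
  rintro ⟨u, p, q, ⟨⟨-, -, hpq⟩, ⟨-, -, hup⟩, huq, hF1, hF2⟩, k, hk⟩
  have hDC := hUN k
  rw [hk] at hDC
  apply hDC
  have hDpos : 0 < td (x p) (x q) := lt_of_le_of_lt (td_nonneg _ _) hF1
  have hpneq : p ≠ q := by
    rintro rfl
    rw [td_self] at hDpos
    exact lt_irrefl _ hDpos
  have hune : u ≠ p := by
    rintro rfl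
    exact lt_irrefl _ hF2
  rcases hup with ⟨hu1, hpu⟩ | ⟨hp1, hpu⟩
  · -- p is the parent of u
    have hpu_lt : p < u := by have := (parent_mem x hu1).1; omega
    rcases hpq with ⟨hp1, hqp⟩ | ⟨hq1, hqp⟩
    · -- q is the parent of p
      have hq_lt : q < p := by have := (parent_mem x hp1).1; omega
      refine ⟨hu1, q, by omega, Or.inl ⟨by omega, by rw [hpu, hqp]⟩, ?_⟩
      rw [hpu]
      exact hF2
    · -- p is the parent of q
      rcases lt_trichotomy q u with hlt | heq | hgt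
      · refine ⟨hu1, q, hlt, Or.inr ⟨hq1, by rw [hpu, hqp]⟩, ?_⟩
        rw [hpu]
        exact hF2
      · exact absurd heq.symm huq
      · exfalso
        have h1 := (parent_mem x hq1).2 u hgt
        rw [hqp, td_comm (x q) (x p), td_comm (x q) (x u)] at h1
        linarith
  · -- u is the parent of p
    exfalso
    have hu_lt : u < p := by have := (parent_mem x hp1).1; omega
    rcases hpq with ⟨-, hqp⟩ | ⟨hq1, hqp⟩
    · exact huq (by rw [← hpu, hqp])
    · have hq_lt : p < q := by have := (parent_mem x hq1).1; omega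
      have h1 := (parent_mem x hq1).2 u (by omega)
      rw [hqp, td_comm (x q) (x p), td_comm (x q) (x u)] at h1
      linarith

end Q287.NT
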